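import Pool.Agent.W_26e041_h61.TopG

/-!
Every finite planar graph has an EPG representation in which every path has at most three bends.
-/

namespace Pool.Agent.Results.MP_26e041_co.PlanarThreeBend

/-- Every finite planar graph is a 3-bend graph. -/
theorem result {V : Type*} [Fintype V] (G : SimpleGraph V) (hG : EPG26.PlanarTop G) :
    EPG26.IsKBend G 3 :=
  EPG26.planarTop_bend3 G hG

end Pool.Agent.Results.MP_26e041_co.PlanarThreeBend
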